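import Mathlib
import Pool.Agent.Work.MP_bbb683_h51.Seq
import Pool.Agent.Work.MP_bbb683_h51.Rec

/-!
# MP_bbb683_co: sequences whose small differences are represented at most `g` times
-/

set_option autoImplicit false

namespace Pool.Agent.Results.MP_bbb683_co.LocalSidon

open Finset

/-- `a 0 < a 1 < ...` is a strictly increasing sequence of positive integers. -/
def IsSeq (a : ℕ → ℕ) : Prop := StrictMono a ∧ 0 < a 0

/-- All pairwise sums `a i + a j` with `i ≤ j` are distinct. -/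
def IsSidonSeq (a : ℕ → ℕ) : Prop :=
  ∀ i j k l, i ≤ j → k ≤ l → a i + a j = a k + a l → i = k ∧ j = l

/-- Every difference `a j - a i` (`i < j`) which is smaller than `(a j) ^ η` is the difference
`a l - a k` of at most `g` pairs `(k, l)`. -/
def LocalSidon (g : ℕ) (η : ℝ) (a : ℕ → ℕ) : Prop :=
  ∀ i j, i < j → (a j : ℝ) - a i < (a j : ℝ) ^ η →
    {p : ℕ × ℕ | a p.2 = a p.1 + (a j - a i)}.encard ≤ g

/-- The sum of `a_i ^ (-1/2)` over the first `x` terms. -/
noncomputable def S (a : ℕ → ℕ) (x : ℕ) : ℝ := ∑ i ∈ range x, 1 / √(a i : ℝ)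

theorem squares_local (g : ℕ) (η : ℝ) (hη : η ≤ 1 / 2) :
    LocalSidon g η (fun n => (n + 1) ^ 2) := by
  intro i j hij hlt
  exfalso
  have h1 : ((((j + 1) ^ 2 : ℕ) : ℝ)) ^ η ≤ (j + 1 : ℝ) := by
    have h2 : (1 : ℝ) ≤ (((j + 1) ^ 2 : ℕ) : ℝ) := by
      exact_mod_cast Nat.one_le_pow _ _ (by omega)
    calc ((((j + 1) ^ 2 : ℕ) : ℝ)) ^ η ≤ ((((j + 1) ^ 2 : ℕ) : ℝ)) ^ (1 / 2 : ℝ) :=
          Real.rpow_le_rpow_of_exponent_le h2 hη
      _ = (j + 1 : ℝ) := by
          rw [← Real.sqrt_eq_rpow]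
          push_cast
          exact Real.sqrt_sq (by positivity)
  have h3 : ((i : ℝ) + 1) ≤ j := by exact_mod_cast hij
  have h4 : (0 : ℝ) ≤ i := by positivity
  push_cast at hlt h1
  nlinarith

theorem squares_sum (x : ℕ) (hx : 1 ≤ x) :
    Real.log x ≤ S (fun n => (n + 1) ^ 2) x := by
  have h1 := log_add_one_le_harmonic x
  have h2 : S (fun n => (n + 1) ^ 2) x = harmonic x := by
    unfold S harmonic
    push_cast
    refine sum_congr rfl fun i _ => ?_
    rw [Real.sqrt_sq (by positivity), one_div]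
  rw [h2]
  refine le_trans (Real.log_le_log (by exact_mod_cast hx) ?_) h1
  push_cast
  linarith

theorem sidon_iff (a : ℕ → ℕ) (ha : IsSeq a) : LocalSidon 1 1 a ↔ IsSidonSeq a := by
  obtain ⟨hmono, h0⟩ := ha
  have hpos : ∀ i, 0 < a i := fun i => lt_of_lt_of_le h0 (hmono.monotone (Nat.zero_le i))
  constructor
  · intro h
    -- the main case: `a l - a j = a i - a k` with `k < i`
    have key : ∀ i j k l, k < i → a i + a j = a k + a l → i ≤ j → k ≤ l → False := by
      intro i j k l hki hs hij hkl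
      have h1 : a k < a i := hmono hki
      have h2 : a j < a l := by omega
      have h3 : j < l := hmono.lt_iff_lt.1 h2
      have h4 := h k i hki (by
        rw [Real.rpow_one]
        have : (0 : ℝ) < a k := by exact_mod_cast hpos k
        linarith)
      rw [Nat.cast_one, Set.encard_le_one_iff] at h4
      have h5 := h4 (k, i) (j, l) (by simp only [Set.mem_setOf_eq]; omega)
        (by simp only [Set.mem_setOf_eq]; omega)
      have h6 := congrArg Prod.fst h5
      simp only at h6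
      omega
    intro i j k l hij hkl hs
    rcases lt_trichotomy i k with h1 | h1 | h1
    · exact (key k l i j h1 hs.symm hkl hij).elim
    · subst h1
      exact ⟨rfl, hmono.injective (by omega)⟩
    · exact (key i j k l h1 hs hij hkl).elim
  · intro h i j hij _
    rw [Nat.cast_one, Set.encard_le_one_iff]
    rintro ⟨k, l⟩ ⟨k', l'⟩ h1 h2
    simp only [Set.mem_setOf_eq] at h1 h2
    have h3 : a i < a j := hmono hij
    have h4 : a l + a k' = a k + a l' := by omega
    have hkl : k < l := hmono.lt_iff_lt.1 (by omega)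
    have hkl' : k' < l' := hmono.lt_iff_lt.1 (by omega)
    -- order the two sums
    have h5 : l = l' ∧ k = k' := by
      rcases le_total k' l with e1 | e1 <;> rcases le_total k l' with e2 | e2
      · have := h k' l k l' e1 e2 (by omega)
        exact ⟨this.2, this.1.symm⟩
      · have := h k' l l' k e1 e2 (by omega)
        omega
      · have := h l k' k l' e1 e2 (by omega)
        omega
      · have := h l k' l' k e1 e2 (by omega)
        omega
    rw [h5.1, h5.2]

/-- The bound of Erdős for local Sidon sequences, its sharpness, the relation with Sidon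
sequences, and the threshold `1/2`. -/
theorem result :
    (∀ (g : ℕ) (η : ℝ), 1 / 2 < η → ∃ C : ℝ, ∀ a : ℕ → ℕ, IsSeq a → LocalSidon g η a →
      ∀ x : ℕ, 2 ≤ x → S a x ≤ C * √(Real.log x)) ∧
    (∀ (g : ℕ) (η : ℝ), 1 ≤ g → η < (2 * g + 1) / (2 * g + 2) →
      ∃ a : ℕ → ℕ, IsSeq a ∧ LocalSidon g η a ∧
        ∃ c : ℝ, 0 < c ∧ ∃ᶠ x : ℕ in Filter.atTop, c * √(Real.log x) ≤ S a x) ∧
    (∀ a : ℕ → ℕ, IsSeq a → (LocalSidon 1 1 a ↔ IsSidonSeq a)) ∧
    (IsSeq (fun n => (n + 1) ^ 2) ∧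
      (∀ (g : ℕ) (η : ℝ), η ≤ 1 / 2 → LocalSidon g η (fun n => (n + 1) ^ 2)) ∧
      ∀ x : ℕ, 1 ≤ x → Real.log x ≤ S (fun n => (n + 1) ^ 2) x) := by
  refine ⟨?_, ?_, sidon_iff, ⟨?_, ?_⟩, squares_local, squares_sum⟩
  · intro g η hη
    obtain ⟨C, hC⟩ := Pool.Agent.Work.MP_bbb683_h51.sum_bound g η hη
    exact ⟨C, fun a ha hL x hx => hC a ha.1 ha.2 hL x hx⟩
  · intro g η hg hη
    obtain ⟨a, h1, h2, h3, c, hc, h4⟩ := Pool.Agent.Work.MP_bbb683_h51.seq_exists hg hη
    refine ⟨a, ⟨h1, h2⟩, h3, c, hc, ?_⟩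
    rw [Filter.frequently_atTop]
    intro N
    obtain ⟨x, hx, h⟩ := h4 N
    exact ⟨x, hx, h⟩
  · intro i j hij
    exact Nat.pow_lt_pow_left (by omega) (by norm_num)
  · norm_num

end Pool.Agent.Results.MP_bbb683_co.LocalSidon
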