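import Mathlib
import Pool.Agent.Work.MP_bbb683_l63.Dyad
import Pool.Agent.Work.MP_bbb683_l63.Inf

/-!
# MP_bbb683_co: Q1 is a question on finite Sidon sets between `N` and `N ^ (1 + ε)`
-/

set_option autoImplicit false

namespace Pool.Agent.Results.MP_bbb683_co.Localisation

open Finset Filter

/-- `a 0 < a 1 < ...` is a strictly increasing sequence of positive integers. -/
def IsSeq (a : ℕ → ℕ) : Prop := StrictMono a ∧ 0 < a 0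

/-- All pairwise sums `a i + a j` with `i ≤ j` are distinct. -/
def IsSidonSeq (a : ℕ → ℕ) : Prop :=
  ∀ i j k l, i ≤ j → k ≤ l → a i + a j = a k + a l → i = k ∧ j = l

/-- The sum of `a_i ^ (-1/2)` over the first `x` terms. -/
noncomputable def S (a : ℕ → ℕ) (x : ℕ) : ℝ := ∑ i ∈ range x, 1 / √(a i : ℝ)

/-- A finite Sidon set. -/
def IsSidonSet (B : Finset ℕ) : Prop :=
  ∀ a ∈ B, ∀ b ∈ B, ∀ c ∈ B, ∀ d ∈ B, a + b = c + d → (a = c ∧ b = d) ∨ (a = d ∧ b = c)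

/-- All elements of `B` are between `N` and `N ^ (1 + ε)`. -/
def Between (N : ℕ) (ε : ℝ) (B : Finset ℕ) : Prop :=
  ∀ b ∈ B, N ≤ b ∧ (b : ℝ) ≤ (N : ℝ) ^ (1 + ε)

/-- Question Q1: some Sidon sequence has `limsup S(x) / √(ln x) > 0`. -/
def Q1 : Prop := ∃ a : ℕ → ℕ, IsSeq a ∧ IsSidonSeq a ∧
  ∃ c : ℝ, 0 < c ∧ ∃ᶠ x : ℕ in atTop, c * √(Real.log x) ≤ S a x

open Pool.Agent.Work.MP_bbb683_l63

theorem ss {a : ℕ → ℕ} (h : IsSeq a) (h' : IsSidonSeq a) : SS a := ⟨h.1, h.2, h'⟩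

theorem freq {p : ℕ → Prop} : (∃ᶠ x : ℕ in atTop, p x) ↔ ∀ N : ℕ, ∃ x, N ≤ x ∧ p x := by
  rw [Filter.frequently_atTop]

theorem q1_of_HH {c : ℝ} (hc : 0 < c) (h : HH c) : Q1 := by
  obtain ⟨a, ha, -, h2⟩ := limsup_ext c hc h ∅ (by intro a ha; simp at ha) (by simp)
  exact ⟨a, ⟨ha.mono, ha.pos⟩, ha.sidon, c / 6, by positivity, freq.2 h2⟩

/-- Localisation of Q1, its dyadic form, extension of finite Sidon sets, and the version for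
all `x`. -/
theorem result :
    (∀ ε : ℝ, 0 < ε → (Q1 ↔ ∃ c : ℝ, 0 < c ∧ ∃ᶠ N : ℕ in atTop, ∃ B : Finset ℕ,
      IsSidonSet B ∧ Between N ε B ∧ c * √(Real.log N) ≤ ∑ b ∈ B, 1 / √(b : ℝ))) ∧
    (∀ ε : ℝ, 0 < ε → (Q1 ↔ ∃ c : ℝ, 0 < c ∧ ∃ᶠ N : ℕ in atTop, ∃ B : Finset ℕ,
      IsSidonSet B ∧ Between N ε B ∧ ∃ K : Finset ℕ, c * Real.log N ≤ K.card ∧
        ∀ k ∈ K, c * √(2 ^ k / Real.log N) ≤
          (B.filter fun b => 2 ^ k ≤ b ∧ b < 2 ^ (k + 1)).card)) ∧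
    (∀ c : ℝ, 0 < c →
      (∃ a : ℕ → ℕ, IsSeq a ∧ IsSidonSeq a ∧ ∃ᶠ x : ℕ in atTop, c * √(Real.log x) ≤ S a x) →
      ∀ A : Finset ℕ, IsSidonSet A → (∀ a ∈ A, 0 < a) →
        ∃ a : ℕ → ℕ, IsSeq a ∧ IsSidonSeq a ∧ (range A.card).image a = A ∧
          ∃ᶠ x : ℕ in atTop, c / 7 * √(Real.log x) ≤ S a x) ∧
    ((∃ a : ℕ → ℕ, IsSeq a ∧ IsSidonSeq a ∧
        ∃ c : ℝ, 0 < c ∧ ∀ x : ℕ, 2 ≤ x → c * √(Real.log x) ≤ S a x) ↔
      ∃ c : ℝ, 0 < c ∧ ∀ᶠ N : ℕ in atTop, ∃ B : Finset ℕ, IsSidonSet B ∧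
        (∀ b ∈ B, 0 < b ∧ b ≤ N) ∧ c * √(Real.log N) ≤ ∑ b ∈ B, 1 / √(b : ℝ)) := by
  have hloc : ∀ ε : ℝ, 0 < ε → Q1 → ∃ c : ℝ, 0 < c ∧ LocF ε c := by
    rintro ε hε ⟨a, h1, h2, c, hc, h3⟩
    refine ⟨_, ?_, loc_of_seq (ss h1 h2) hc hε (freq.1 h3)⟩
    have hs1 : √(1 / (1 + ε)) < 1 := by
      rw [Real.sqrt_lt' one_pos, one_pow, div_lt_one (by linarith)]
      linarith
    exact mul_pos (by positivity) (by linarith)
  have hq : ∀ ε c : ℝ, 0 < ε → 0 < c → LocF ε c → Q1 := by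
    intro ε c hε hc h
    exact q1_of_HH (div_pos hc (Real.sqrt_pos.2 (by linarith))) (HH_of_loc hε hc h)
  refine ⟨?_, ?_, ?_, ?_⟩
  · intro ε hε
    constructor
    · intro h
      obtain ⟨c, hc, h1⟩ := hloc ε hε h
      exact ⟨c, hc, freq.2 h1⟩
    · rintro ⟨c, hc, h1⟩
      exact hq ε c hε hc (freq.1 h1)
  · intro ε hε
    constructor
    · intro h
      obtain ⟨c, hc, h1⟩ := hloc (min ε 1) (lt_min hε one_pos) h
      have h2 := dyad_of_loc (min_le_right ε 1) hc h1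
      exact ⟨_, lt_min (by positivity) (by positivity), freq.2 (dyad_mono (min_le_left ε 1) h2)⟩
    · rintro ⟨c, hc, h1⟩
      exact hq ε (c ^ 2 / 2) hε (by positivity) (loc_of_dyad hc (freq.1 h1))
  · rintro c hc ⟨b, h1, h2, h3⟩ A hA hA0
    have h4 : HH (6 * c / 7) := HH_of_seq (ss h1 h2) (by linarith) (freq.1 h3)
    obtain ⟨a, ha, himg, h5⟩ := limsup_ext (6 * c / 7) (by positivity) h4 A hA hA0
    refine ⟨a, ⟨ha.mono, ha.pos⟩, ha.sidon, himg, freq.2 ?_⟩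
    have h6 : 6 * c / 7 / 6 = c / 7 := by ring
    rw [h6] at h5
    exact h5
  · constructor
    · rintro ⟨a, h1, h2, c, hc, h3⟩
      obtain ⟨N₀, hN₀⟩ := sets_of_liminf (ss h1 h2) hc h3
      exact ⟨c / 4, by positivity, Filter.eventually_atTop.2 ⟨N₀, hN₀⟩⟩
    · rintro ⟨c, hc, h1⟩
      obtain ⟨N₀, hN₀⟩ := Filter.eventually_atTop.1 h1
      obtain ⟨a, ha, c', hc', h2⟩ := liminf_seq hc hN₀
      exact ⟨a, ⟨ha.mono, ha.pos⟩, ha.sidon, c', hc', h2⟩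

end Pool.Agent.Results.MP_bbb683_co.Localisation
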