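import Mathlib
import Pool.Agent.Work.MP_bbb683_h63.Fin

/-!
# MP_bbb683_co: Sidon sequences close to a dilate of a set which misses residue classes
-/

set_option autoImplicit false

namespace Pool.Agent.Results.MP_bbb683_co.MissedResidues

open Finset Filter Topology

/-- `a 0 < a 1 < ...` is a strictly increasing sequence of positive integers. -/
def IsSeq (a : ℕ → ℕ) : Prop := StrictMono a ∧ 0 < a 0

/-- All pairwise sums `a i + a j` with `i ≤ j` are distinct. -/
def IsSidonSeq (a : ℕ → ℕ) : Prop :=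
  ∀ i j k l, i ≤ j → k ≤ l → a i + a j = a k + a l → i = k ∧ j = l

/-- The sum of `a_i ^ (-1/2)` over the first `x` terms. -/
noncomputable def S (a : ℕ → ℕ) (x : ℕ) : ℝ := ∑ i ∈ range x, 1 / √(a i : ℝ)

/-- Every term of the sequence is at distance at most `K` from an element of `α Q`. -/
def Near (a : ℕ → ℕ) (α K : ℝ) (Q : Set ℕ) : Prop := ∀ i, ∃ q ∈ Q, |(a i : ℝ) - α * q| ≤ K

/-- The number of residue classes modulo `p` which contain no element of `Q`. -/
noncomputable def missed (Q : Set ℕ) (p : ℕ) : ℕ := {c | c < p ∧ ∀ q ∈ Q, q % p ≠ c}.ncard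

/-- `min 2 (p / (p - r))`, `r` the number of missed classes. -/
noncomputable def lam (Q : Set ℕ) (p : ℕ) : ℝ := min 2 ((p : ℝ) / ((p : ℝ) - missed Q p))

/-- The sum over the primes `p ≤ x` of `(λ log λ - λ + 1) / p`. -/
noncomputable def G (Q : Set ℕ) (x : ℕ) : ℝ :=
  ∑ p ∈ (Icc 1 x).filter Nat.Prime, (lam Q p * Real.log (lam Q p) - lam Q p + 1) / p

open Pool.Agent.Work.MP_bbb683_h63

theorem card_add_missed (Q : Set ℕ) (B : Finset ℕ) (hB : ∀ b ∈ B, b ∈ Q) (p : ℕ) (hp : 0 < p) :
    (B.image (· % p)).card + missed Q p ≤ p := by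
  classical
  have hfin : {c | c < p ∧ ∀ q ∈ Q, q % p ≠ c}.Finite :=
    (Set.finite_lt_nat p).subset fun c hc => hc.1
  unfold missed
  rw [Set.ncard_eq_toFinset_card _ hfin]
  have hdis : Disjoint (B.image (· % p)) hfin.toFinset := by
    rw [Finset.disjoint_left]
    intro c hc hc'
    rw [mem_image] at hc
    obtain ⟨b, hb, rfl⟩ := hc
    rw [Set.Finite.mem_toFinset] at hc'
    exact hc'.2 b (hB b hb) rfl
  rw [← card_union_of_disjoint hdis]
  have h1 : B.image (· % p) ∪ hfin.toFinset ⊆ range p := by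
    intro c hc
    rw [mem_union, mem_image, Set.Finite.mem_toFinset] at hc
    rw [mem_range]
    rcases hc with ⟨b, -, rfl⟩ | hc
    · exact Nat.mod_lt b hp
    · exact hc.1
  have h2 := card_le_card h1
  rwa [card_range] at h2

/-- Sidon sequences at bounded distance from a dilate of a set `Q`: a bound which improves with the
number of residue classes missed by `Q`. -/
theorem result :
    ∀ α K : ℝ, 0 < α → ∃ C : ℝ, ∀ Q : Set ℕ, ∀ a : ℕ → ℕ, IsSeq a → IsSidonSeq a →
      Near a α K Q →
      (∀ x : ℕ, 2 ≤ x → S a x ≤ C * √(Real.log x) * Real.exp (-G Q x / 2)) ∧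
      ((¬ Summable fun p : Nat.Primes => (missed Q p : ℝ) ^ 2 / ((p : ℕ) : ℝ) ^ 3) →
        Tendsto (fun x : ℕ => S a x / √(Real.log x)) atTop (𝓝 0)) := by
  classical
  intro α K hα
  obtain ⟨C, hC0, hC⟩ := final_U α K hα
  refine ⟨C, ?_⟩
  intro Q a ha hs hn
  obtain ⟨q₀, hq₀, -⟩ := hn 0
  set κ : ℕ → ℕ := fun p => p - missed Q p with hκ
  have hmis : ∀ p : ℕ, p.Prime → missed Q p + 1 ≤ p := by
    intro p hp
    have h1 := card_add_missed Q {q₀} (by simpa using hq₀) p hp.pos
    simp only [image_singleton, card_singleton] at h1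
    omega
  have hκ1 : ∀ p : ℕ, p.Prime → 1 ≤ κ p ∧ κ p ≤ p := fun p hp => by
    have := hmis p hp
    simp only [hκ]
    omega
  have hcast : ∀ p : ℕ, p.Prime → ((κ p : ℕ) : ℝ) = (p : ℝ) - missed Q p := by
    intro p hp
    have := hmis p hp
    simp only [hκ]
    rw [Nat.cast_sub (by omega)]
  have hgain : ∀ p : ℕ, p.Prime →
      (lam Q p * Real.log (lam Q p) - lam Q p + 1) / p = gain (κ p) p := by
    intro p hp
    unfold gain qf Pool.Agent.Work.MP_bbb683_h63.lam lam
    rw [hcast p hp]
  have hG : ∀ x, G Q x = ∑ p ∈ (Icc 1 x).filter Nat.Prime, gain (κ p) p := by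
    intro x
    unfold G
    apply Finset.sum_congr rfl
    intro p hp
    exact hgain p (mem_filter.1 hp).2
  have hmain : ∀ x : ℕ, 2 ≤ x → S a x ≤ C * √(Real.log x) * Real.exp (-G Q x / 2) := by
    intro x hx
    have h1 := hC Q κ hκ1 (by
      intro B hB p hp
      have h4 := card_add_missed Q B hB p hp.pos
      simp only [hκ]
      omega) a ha.1 hs hn x hx
    have h2 : -G Q x / 2 = -(1 / 2) * ∑ p ∈ (Icc 1 x).filter Nat.Prime, gain (κ p) p := by
      rw [hG]
      ring
    unfold S
    rw [h2, mul_assoc]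
    exact h1
  refine ⟨hmain, fun hQ => ?_⟩
  -- the sum of the gains diverges
  have hdiv : Tendsto (fun x : ℕ => G Q x) atTop atTop := by
    set f : ℕ → ℝ := fun p => if p.Prime then (missed Q p : ℝ) ^ 2 / (p : ℝ) ^ 3 else 0 with hf
    have hf0 : ∀ p, 0 ≤ f p := fun p => by
      simp only [hf]
      split_ifs <;> positivity
    have hns : ¬ Summable f := by
      intro h
      apply hQ
      have h1 : (fun p : Nat.Primes => (missed Q p : ℝ) ^ 2 / ((p : ℕ) : ℝ) ^ 3) =
          f ∘ (fun p : Nat.Primes => (p : ℕ)) := by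
        funext p
        simp only [Function.comp, hf, if_pos p.2]
      rw [h1]
      exact h.comp_injective Subtype.val_injective
    have h1 := (not_summable_iff_tendsto_nat_atTop_of_nonneg hf0).1 hns
    have h2 : Tendsto (fun x : ℕ => x + 1) atTop atTop := tendsto_add_atTop_nat 1
    have h3 := (h1.comp h2).const_mul_atTop (show (0 : ℝ) < 1 / 3 by norm_num)
    refine tendsto_atTop_mono (fun x => ?_) h3
    simp only [Function.comp]
    rw [hG, Finset.mul_sum]
    have h4 : ∑ p ∈ range (x + 1), 1 / 3 * f p =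
        ∑ p ∈ (Icc 1 x).filter Nat.Prime, 1 / 3 * ((missed Q p : ℝ) ^ 2 / (p : ℝ) ^ 3) := by
      have h5 : (range (x + 1)).filter Nat.Prime = (Icc 1 x).filter Nat.Prime := by
        ext p
        rw [mem_filter, mem_range, mem_filter, mem_Icc]
        constructor
        · rintro ⟨h5, h6⟩
          exact ⟨⟨h6.one_lt.le, by omega⟩, h6⟩
        · rintro ⟨h5, h6⟩
          exact ⟨by omega, h6⟩
      rw [← h5, Finset.sum_filter]
      apply Finset.sum_congr rfl
      intro p _
      simp only [hf]
      split_ifs <;> ring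
    rw [h4]
    apply Finset.sum_le_sum
    intro p hp
    have hpp := (mem_filter.1 hp).2
    have hp0 : (0 : ℝ) < p := by exact_mod_cast hpp.pos
    obtain ⟨h5, h6⟩ := hκ1 p hpp
    obtain ⟨h7, h8⟩ := lam_bd h5 h6
    have h9 := Q_ge h7 h8
    have hκ0 : (0 : ℝ) < κ p := by exact_mod_cast h5
    have hκp : (κ p : ℝ) ≤ p := by exact_mod_cast h6
    have hmp : (missed Q p : ℝ) ≤ p := by
      have := hmis p hpp
      exact_mod_cast (by omega : missed Q p ≤ p)
    have hm0 : (0 : ℝ) ≤ missed Q p := Nat.cast_nonneg _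
    have h10 : (missed Q p : ℝ) / p ≤ Pool.Agent.Work.MP_bbb683_h63.lam (κ p) p - 1 := by
      unfold Pool.Agent.Work.MP_bbb683_h63.lam
      rw [le_sub_iff_add_le]
      apply le_min
      · have : (missed Q p : ℝ) / p ≤ 1 := (div_le_one hp0).2 hmp
        linarith
      · have h11 : (p : ℝ) / κ p = ((p : ℝ) - κ p) / κ p + 1 := by
          field_simp
          ring
        rw [h11]
        have h12 : (missed Q p : ℝ) = (p : ℝ) - κ p := by
          rw [hcast p hpp]
          ring
        rw [h12]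
        have h13 : ((p : ℝ) - κ p) / p ≤ ((p : ℝ) - κ p) / κ p :=
          div_le_div_of_nonneg_left (by linarith) hκ0 hκp
        linarith
    have h11 : 0 ≤ (missed Q p : ℝ) / p := by positivity
    have h12 : ((missed Q p : ℝ) / p) ^ 2 ≤
        (Pool.Agent.Work.MP_bbb683_h63.lam (κ p) p - 1) ^ 2 := pow_le_pow_left₀ h11 h10 2
    have h13 : 1 / 3 * ((missed Q p : ℝ) ^ 2 / (p : ℝ) ^ 3) =
        (((missed Q p : ℝ) / p) ^ 2 / 3) / p := by
      field_simp
    rw [h13]
    unfold gain qf
    apply div_le_div_of_nonneg_right _ hp0.le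
    linarith
  have hlim : Tendsto (fun x : ℕ => C * Real.exp (-G Q x / 2)) atTop (𝓝 0) := by
    have h1 : Tendsto (fun x : ℕ => -G Q x / 2) atTop atBot := by
      have h2 := hdiv.const_mul_atTop (show (0 : ℝ) < 1 / 2 by norm_num)
      have h3 := tendsto_neg_atTop_atBot.comp h2
      refine h3.congr fun x => ?_
      simp only [Function.comp]
      ring
    have h2 := (Real.tendsto_exp_atBot.comp h1).const_mul C
    rw [mul_zero] at h2
    exact h2
  refine tendsto_of_tendsto_of_tendsto_of_le_of_le' tendsto_const_nhds hlim ?_ ?_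
  · filter_upwards with x
    apply div_nonneg _ (Real.sqrt_nonneg _)
    unfold S
    exact Finset.sum_nonneg fun i _ => by positivity
  · filter_upwards [eventually_ge_atTop 2] with x hx
    have hlx : 0 < Real.log x := Real.log_pos (by exact_mod_cast (by omega : 1 < x))
    have hsq : 0 < √(Real.log x) := Real.sqrt_pos.2 hlx
    rw [div_le_iff₀ hsq]
    have := hmain x hx
    linarith

end Pool.Agent.Results.MP_bbb683_co.MissedResidues
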