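import Mathlib
import Pool.Agent.Work.MP_bbb683_h63.Fin

/-!
# MP_bbb683_co: Sidon sequences of powerful numbers
-/

set_option autoImplicit false

namespace Pool.Agent.Results.MP_bbb683_co.PowerfulNumbers

open Finset

/-- `a 0 < a 1 < ...` is a strictly increasing sequence of positive integers. -/
def IsSeq (a : ℕ → ℕ) : Prop := StrictMono a ∧ 0 < a 0

/-- All pairwise sums `a i + a j` with `i ≤ j` are distinct. -/
def IsSidonSeq (a : ℕ → ℕ) : Prop :=
  ∀ i j k l, i ≤ j → k ≤ l → a i + a j = a k + a l → i = k ∧ j = l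

/-- The sum of `a_i ^ (-1/2)` over the first `x` terms. -/
noncomputable def S (a : ℕ → ℕ) (x : ℕ) : ℝ := ∑ i ∈ range x, 1 / √(a i : ℝ)

/-- Powerful numbers: `p ^ 2` divides `q` for every prime divisor `p` of `q`. -/
def Powerful (q : ℕ) : Prop := ∀ p : ℕ, p.Prime → p ∣ q → p ^ 2 ∣ q

/-- Sidon sequences at bounded distance from a dilate of the powerful numbers. -/
theorem result :
    ∀ α K : ℝ, 0 < α → ∃ C : ℝ, ∀ a : ℕ → ℕ, IsSeq a → IsSidonSeq a →
      (∀ i, ∃ q : ℕ, Powerful q ∧ |(a i : ℝ) - α * q| ≤ K) →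
        ∀ x : ℕ, 2 ≤ x → S a x ≤ C * Real.log x ^ (1 - Real.log 2) := by
  intro α K hα
  obtain ⟨C, hC⟩ := Pool.Agent.Work.MP_bbb683_h63.final_P α K hα
  exact ⟨C, fun a ha hs hn x hx => hC a ha.1 hs hn x hx⟩

end Pool.Agent.Results.MP_bbb683_co.PowerfulNumbers
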